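import Pool.Agent.helper90.IV.Spec

/-!
# MP_26dbae_co, module CB1: the caterpillar is balanced

The edge weight of a set `U` of inner vertices is written as a sum over all inner vertices of terms in the
indicator function of `U`; the connectors and the children are compared termwise with the hubs.
-/

set_option autoImplicit false

open scoped BigOperators

namespace Pool.Agent.helper72.IV

open Pool.Agent.helper23.TH Pool.Agent.KS Pool.Agent.IV

section abs

open Classical

variable {I : Type} [Fintype I]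

/-- the weight in terms of the indicator function of `U` -/
theorem ew_ind (T : Tr I) (U : Finset I) : ∃ χ : I → ℚ, (∀ i, χ i = 0 ∨ χ i = 1) ∧
    (∀ i, i ∈ U → χ i = 1) ∧ (U.card : ℚ) = ∑ i, χ i ∧
    (T.ew U : ℚ) = ∑ i, ((T.ro i : ℚ) * χ i + (T.par i).elim 0 (fun j => χ i * χ j)) := by
  refine ⟨fun i => if i ∈ U then 1 else 0, ?_, ?_, ?_, ?_⟩
  · intro i
    by_cases h : i ∈ U
    · right; simp [h]
    · left; simp [h]
  · intro i h
    simp [h]
  · simp
  · have h1 : (∑ i ∈ U, (T.ro i : ℚ)) = ∑ i, (T.ro i : ℚ) * (if i ∈ U then 1 else 0) := by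
      simp [Finset.sum_ite_mem]
    have h2 : (((Finset.univ.filter fun e : I × I => T.par e.1 = some e.2 ∧ e.1 ∈ U ∧ e.2 ∈ U).card : ℕ) : ℚ) =
        ∑ i, (T.par i).elim 0 (fun j => (if i ∈ U then (1 : ℚ) else 0) * (if j ∈ U then 1 else 0)) := by
      rw [Finset.card_filter]
      push_cast
      rw [Fintype.sum_prod_type]
      refine Finset.sum_congr rfl fun i _ => ?_
      cases hp : T.par i with
      | none => simp [hp]
      | some j =>
        simp only [hp, Option.some.injEq, Option.elim_some]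
        rw [Finset.sum_eq_single j]
        · by_cases h : i ∈ U <;> by_cases h' : j ∈ U <;> simp [h, h']
        · intro b _ hb
          rw [if_neg]
          rintro ⟨h, _⟩
          exact hb h.symm
        · intro h
          exact absurd (Finset.mem_univ _) h
    unfold Tr.ew
    push_cast
    rw [Finset.sum_add_distrib, h1, h2]

end abs

/-- the same for the caterpillar -/
theorem ew_cat (s h : ℕ) (pj : Fin (h + 1) → ℕ) (hs : 3 ≤ s) (U : Finset (CI h pj)) :
    ∃ (a : Fin (h + 1) → ℚ) (c : Fin h → ℚ) (x : (Σ j : Fin (h + 1), Fin (pj j)) → ℚ),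
      (∀ i, a i = 0 ∨ a i = 1) ∧ (∀ i, c i = 0 ∨ c i = 1) ∧ (∀ i, x i = 0 ∨ x i = 1) ∧
      (∀ i, Sum.inl i ∈ U → a i = 1) ∧ (∀ i, Sum.inr (Sum.inl i) ∈ U → c i = 1) ∧
      (∀ i, Sum.inr (Sum.inr i) ∈ U → x i = 1) ∧
      (U.card : ℚ) = ∑ i, a i + (∑ j, c j + ∑ k, x k) ∧
      ((cat s h pj).ew U : ℚ) = ∑ i, ((s : ℚ) - 2) * a i +
        (∑ j : Fin h, (((s : ℚ) - 2) * c j + c j * a j.castSucc + a j.succ * c j) +
        ∑ k : (Σ j : Fin (h + 1), Fin (pj j)), (((s : ℚ) - 1) * x k + x k * a k.1)) := by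
  obtain ⟨χ, h01, hU, hc, he⟩ := ew_ind (cat s h pj) U
  refine ⟨fun i => χ (.inl i), fun i => χ (.inr (.inl i)), fun i => χ (.inr (.inr i)), fun i => h01 _,
    fun i => h01 _, fun i => h01 _, fun i hi => hU _ hi, fun i hi => hU _ hi, fun i hi => hU _ hi, ?_, ?_⟩
  · rw [hc, Fintype.sum_sum_type, Fintype.sum_sum_type]
  · rw [he, Fintype.sum_sum_type, Fintype.sum_sum_type]
    have hs2 : ((s - 2 : ℕ) : ℚ) = (s : ℚ) - 2 := by
      rw [Nat.cast_sub (by omega)]; norm_num
    have hs1 : ((s - 1 : ℕ) : ℚ) = (s : ℚ) - 1 := by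
      rw [Nat.cast_sub (by omega)]; norm_num
    have e1 : (∑ i : Fin (h + 1), ((((cat s h pj).ro (.inl i) : ℕ) : ℚ) * χ (.inl i) +
        ((cat s h pj).par (.inl i)).elim 0 (fun j => χ (.inl i) * χ j))) =
        ∑ i : Fin (h + 1), ((s : ℚ) - 2) * χ (.inl i) + ∑ j : Fin h, χ (.inl j.succ) * χ (.inr (.inl j)) := by
      rw [Finset.sum_add_distrib]
      congr 1
      · refine Finset.sum_congr rfl fun i _ => ?_
        show ((s - 2 : ℕ) : ℚ) * _ = _
        rw [hs2]
      · rw [Fin.sum_univ_succ]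
        simp [cat]
    have e2 : (∑ j : Fin h, ((((cat s h pj).ro (.inr (.inl j)) : ℕ) : ℚ) * χ (.inr (.inl j)) +
        ((cat s h pj).par (.inr (.inl j))).elim 0 (fun j' => χ (.inr (.inl j)) * χ j'))) =
        ∑ j : Fin h, (((s : ℚ) - 2) * χ (.inr (.inl j)) + χ (.inr (.inl j)) * χ (.inl j.castSucc)) := by
      refine Finset.sum_congr rfl fun i _ => ?_
      show ((s - 2 : ℕ) : ℚ) * _ + _ = _
      rw [hs2]
      rfl
    have e3 : (∑ k : (Σ j : Fin (h + 1), Fin (pj j)),
        ((((cat s h pj).ro (.inr (.inr k)) : ℕ) : ℚ) * χ (.inr (.inr k)) +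
        ((cat s h pj).par (.inr (.inr k))).elim 0 (fun j' => χ (.inr (.inr k)) * χ j'))) =
        ∑ k : (Σ j : Fin (h + 1), Fin (pj j)),
          (((s : ℚ) - 1) * χ (.inr (.inr k)) + χ (.inr (.inr k)) * χ (.inl k.1)) := by
      refine Finset.sum_congr rfl fun i _ => ?_
      show ((s - 1 : ℕ) : ℚ) * _ + _ = _
      rw [hs1]
      rfl
    rw [e1, e2, e3]
    simp only [Finset.sum_add_distrib]
    ring

theorem CB1 : CB1_stmt := by
  intro s h pj ρ hs hρ hρs hA hE
  have hs3 : (3 : ℚ) ≤ s := by exact_mod_cast hs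
  refine ⟨?_, ?_⟩
  · intro U
    obtain ⟨a, c, x, ha, hc, hx, -, -, -, hcard, hew⟩ := ew_cat s h pj hs U
    have hAA := hA (Finset.univ.filter fun i => a i = 1)
    have g1 : (∑ j ∈ (Finset.univ.filter fun i => a i = 1), (pj j : ℚ)) = ∑ j, (pj j : ℚ) * a j := by
      rw [Finset.sum_filter]
      refine Finset.sum_congr rfl fun i _ => ?_
      rcases ha i with h0 | h0 <;> simp [h0]
    have g2 : (((Finset.univ.filter fun j : Fin h => j.castSucc ∈ (Finset.univ.filter fun i => a i = 1) ∧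
        j.succ ∈ (Finset.univ.filter fun i => a i = 1)).card : ℕ) : ℚ) =
        ∑ j : Fin h, a j.castSucc * a j.succ := by
      rw [Finset.card_filter]
      push_cast
      refine Finset.sum_congr rfl fun i _ => ?_
      rcases ha i.castSucc with h0 | h0 <;> rcases ha i.succ with h1 | h1 <;> simp [h0, h1]
    have g3 : (((Finset.univ.filter fun i => a i = 1).card : ℕ) : ℚ) = ∑ j, a j := by
      rw [Finset.card_filter]
      push_cast
      refine Finset.sum_congr rfl fun i _ => ?_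
      rcases ha i with h0 | h0 <;> simp [h0]
    have hAA' : ((s : ℚ) - ρ) * ((∑ j, (pj j : ℚ) * a j) + ∑ j : Fin h, a j.castSucc * a j.succ) ≤
        (ρ - (s - 2)) * ∑ j, a j := by
      rw [← g1, ← g2, ← g3]
      exact hAA
    have k1 : ∑ j : Fin h, (((s : ℚ) - 2) * c j + c j * a j.castSucc + a j.succ * c j) ≤
        ∑ j : Fin h, (ρ * c j + ((s : ℚ) - ρ) * (a j.castSucc * a j.succ)) := by
      refine Finset.sum_le_sum fun i _ => ?_
      rcases hc i with h2 | h2 <;> rcases ha i.castSucc with h0 | h0 <;> rcases ha i.succ with h1 | h1 <;>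
        rw [h0, h1, h2] <;> linarith
    have k2 : ∑ k : (Σ j : Fin (h + 1), Fin (pj j)), (((s : ℚ) - 1) * x k + x k * a k.1) ≤
        ∑ k : (Σ j : Fin (h + 1), Fin (pj j)), (ρ * x k + ((s : ℚ) - ρ) * a k.1) := by
      refine Finset.sum_le_sum fun i _ => ?_
      rcases hx i with h2 | h2 <;> rcases ha i.1 with h0 | h0 <;>
        rw [h0, h2] <;> linarith
    have k3 : ∑ k : (Σ j : Fin (h + 1), Fin (pj j)), a k.1 = ∑ j, (pj j : ℚ) * a j := by
      rw [Fintype.sum_sigma]
      refine Finset.sum_congr rfl fun i _ => ?_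
      simp
    rw [hew, hcard]
    have r1 : ∑ j : Fin h, (ρ * c j + ((s : ℚ) - ρ) * (a j.castSucc * a j.succ)) =
        ρ * ∑ j, c j + ((s : ℚ) - ρ) * ∑ j : Fin h, a j.castSucc * a j.succ := by
      rw [Finset.sum_add_distrib, ← Finset.mul_sum, ← Finset.mul_sum]
    have r2 : ∑ k : (Σ j : Fin (h + 1), Fin (pj j)), (ρ * x k + ((s : ℚ) - ρ) * a k.1) =
        ρ * ∑ k, x k + ((s : ℚ) - ρ) * ∑ j, (pj j : ℚ) * a j := by
      rw [Finset.sum_add_distrib, ← Finset.mul_sum, ← Finset.mul_sum, k3]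
    rw [r1] at k1
    rw [r2] at k2
    rw [← Finset.mul_sum]
    linarith [k1, k2, hAA']
  · obtain ⟨a, c, x, -, -, -, ha, hc, hx, hcard, hew⟩ := ew_cat s h pj hs Finset.univ
    have ha' : a = fun _ => 1 := funext fun i => ha i (Finset.mem_univ _)
    have hc' : c = fun _ => 1 := funext fun i => hc i (Finset.mem_univ _)
    have hx' : x = fun _ => 1 := funext fun i => hx i (Finset.mem_univ _)
    have hc2 : ((Fintype.card (CI h pj) : ℕ) : ℚ) = ∑ i, a i + (∑ j, c j + ∑ k, x k) := by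
      rw [← hcard, Finset.card_univ]
    have k3 : ((Fintype.card (Σ j : Fin (h + 1), Fin (pj j)) : ℕ) : ℚ) = ∑ j, (pj j : ℚ) := by
      rw [Fintype.card_sigma]
      simp
    rw [hew, hc2, ha', hc', hx']
    simp only [mul_one, Finset.sum_const, Finset.card_univ, Fintype.card_fin, nsmul_eq_mul, k3]
    push_cast
    linarith

end Pool.Agent.helper72.IV
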